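import Pool.Agent.Q83.Mey.Fin

open MeasureTheory
open scoped FourierTransform

namespace Pool.Agent.Results.MP_27eeb4_an.NotBandLimited

/-- `ψ` is an orthonormal wavelet: the functions `ψ_{j,k}(x) = 2^{j/2} ψ(2^j x - k)`, `j, k ∈ ℤ`,
form an orthonormal basis of `L^2(ℝ)`. -/
def IsOrthonormalWavelet (ψ : ℝ → ℂ) : Prop :=
  ∃ b : HilbertBasis (ℤ × ℤ) ℂ (Lp ℂ 2 (volume : Measure ℝ)), ∀ j k : ℤ,
    (b (j, k) : ℝ → ℂ) =ᵐ[volume]
      fun x => (((2 : ℝ) ^ ((j : ℝ) / 2) : ℝ) : ℂ) * ψ ((2 : ℝ) ^ j * x - k)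

/-- **Main result.** There is an orthonormal wavelet in the Schwartz class whose Fourier transform
is not compactly supported. -/
theorem result : ∃ ψ : SchwartzMap ℝ ℂ,
    IsOrthonormalWavelet (fun x => ψ x) ∧ ¬ HasCompactSupport (𝓕 (fun x : ℝ => ψ x)) := by
  obtain ⟨ψ, hb, hne⟩ := Pool.Agent.Q83.Mey.main
  refine ⟨ψ, hb, fun hcs => ?_⟩
  obtain ⟨R, hR⟩ := hcs.isCompact.isBounded.subset_closedBall 0
  obtain ⟨n, hn⟩ := exists_nat_gt (max R 0)
  obtain ⟨y, hy, hy0⟩ := hne n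
  have h1 : y ∈ tsupport (𝓕 (fun x : ℝ => ψ x)) := by
    apply subset_tsupport
    rw [Function.mem_support]
    rw [SchwartzMap.fourier_coe] at hy0
    exact hy0
  have h2 := hR h1
  rw [Metric.mem_closedBall, dist_zero_right, Real.norm_eq_abs] at h2
  have h3 := le_abs_self y
  have h4 := le_max_left R 0
  linarith

end Pool.Agent.Results.MP_27eeb4_an.NotBandLimited
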